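import Pool.Agent.H38.UG.Patch
import Pool.Agent.H33.UG.A1

/-! Closing line of the statement `patch` of the skeleton of block A (over `patch_of` of
helper38). -/

set_option autoImplicit false

open MvPolynomial

namespace Pool.Agent.H47.UG

namespace FF

variable {K : Type} [Field K] [CharZero K] {n d : ℕ} {F : HP K n} (T : FF d F) (hF : Nice d F)

include hF

/-- PATCH -/
theorem patch {V : Type} [AddCommGroup V] [Module T.L V] [Module K V] [IsScalarTower K T.L V]
    (hd : 2 ≤ d) (i : Fin (n + 2)) (M : Submodule K V) (hM : ∀ a ∈ T.A i, ∀ v ∈ M, a • v ∈ M) (v : V)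
    (h : ∀ j, j ≠ i → ∃ N : ℕ, T.u i j ^ N • v ∈ M) : v ∈ M :=
  T.patch_of i (T.u_mem hF i) (T.smoothA hF hd i) M hM v h

end FF

end Pool.Agent.H47.UG
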