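import Pool.Agent.H47.UG.FFex
import Pool.Agent.H47.UG.GenF
import Pool.Agent.H77.UG.Hilb
import Pool.Agent.H47.UG.Subsp
import Pool.Agent.H47.UG.LeadK
import Pool.Agent.H94.UG.Ipd
import Pool.Agent.H33.UG.A1
import Pool.Agent.H82.UG.CloseA
import Pool.Agent.H47.UG.Det
import Pool.Agent.H25.UG.SigF
import Pool.Agent.H47.UG.Del
import Pool.Agent.H94.UG.Psi
import Pool.Agent.H77.UG.RetrF
import Pool.Agent.H29.UG.H0O
import Pool.Agent.H47.UG.H0Y
import Pool.Agent.H1.UG.LocGGF
import Pool.Agent.H47.UG.LocGP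
import Pool.Agent.H47.UG.GPle
import Pool.Agent.H47.UG.Stab
import Pool.Agent.H65.UG.Sym
import Pool.Agent.H47.UG.SymEE
import Pool.Agent.H47.UG.Symb
import Pool.Agent.H47.UG.Lift
import Pool.Agent.H30.UG.Strict
import Pool.Agent.H47.UG.Van
import Pool.Agent.H47.UG.Sec
import Pool.Agent.H47.UG.Kdim
import Pool.Agent.H47.UG.Filt
import Pool.Agent.H73.UG.YbFin

/-! Integration of block A: one file for each statement of the skeleton. -/
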